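import Pool.Agent.Lib.MP_011f3a_lc.LM.K.LimB

/-! # Homogeneous data, part 2 (module H-DATAB)

See the header of H/Data.lean. -/

namespace Pool.Agent.Lib.MP_011f3a_lc.LM

open Cardinal

variable {Ω : Type} [LinearOrder Ω] [WellFoundedLT Ω] {md : Md} {ζ ξ η τ δ β : Ω}

theorem exists_works {In : Cn Ω md τ → (Flt (Cn Ω md τ) → Set ℕ) → Prop} {p : Cn Ω md τ} (hI : InH In p) (hβ : β < τ)
    (hc : CofU β) : ∃ δ < β, ∃ d : Dat md δ, Works In p β d := by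
  obtain ⟨p1, hp1, x, hx, hIn, hNot⟩ := hI.big β hβ p le_rfl
  obtain ⟨q1, hq1, f1, hf1, hSC⟩ := kl1 hβ p1 hx hNot
  obtain ⟨q, hq, _, hNR⟩ := hc_dense q1
  obtain ⟨v, hv, a, ha, hFa⟩ := exists_nmC hf1 (tr β q)
  obtain ⟨v2, hv2, b, hb, hFb⟩ := exists_nmC (bt_ev (q.co β)) v
  obtain ⟨v3, hv3, hv3H, _⟩ := hc_dense v2
  have hv3q : v3 ≤ tr β q := hv3.trans (hv2.trans hv)
  obtain ⟨q', k1, k2, k3, _⟩ := exists_join hβ.le q v3 hv3q
  obtain ⟨δ, hδ, hbd⟩ := exists_bd hc ({v3} ∪ ((⋃ n, a n) ∪ ⋃ s, b s))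
    ((Set.countable_singleton v3).union ((Set.countable_iUnion fun n => (ha n).1).union
      (Set.countable_iUnion fun s => (hb s).1)))
  have hbd3 : tr β (tr δ v3) = v3 := hbd v3 (Or.inl rfl)
  have hmt1 : ∀ G : Flt (Cn Ω md β), ev a G = ev (fun n => {c | ∃ c' ∈ a n, c = tr δ c'}) (rs δ G) := by
    intro G
    ext n
    exact mt_bd hδ.le (fun c hc => hbd c (Or.inr (Or.inl (Set.mem_iUnion.2 ⟨n, hc⟩)))) G
  have hmt2 : ∀ G : Flt (Cn Ω md β), ev b G = ev (fun n => {c | ∃ c' ∈ b n, c = tr δ c'}) (rs δ G) := by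
    intro G
    ext n
    exact mt_bd hδ.le (fun c hc => hbd c (Or.inr (Or.inr (Set.mem_iUnion.2 ⟨n, hc⟩)))) G
  have hnm : ∀ {ι : Type} {a : ι → Set (Cn Ω md β)}, a ∈ NmC md β ι →
      (fun n => {c | ∃ c' ∈ a n, c = tr δ c'}) ∈ NmC md δ ι := by
    intro ι a ha n
    have e : {c | ∃ c' ∈ a n, c = tr δ c'} = tr δ '' a n := by
      ext c
      constructor
      · rintro ⟨c', h1, h2⟩
        exact ⟨c', h1, h2.symm⟩
      · rintro ⟨c', h1, h2⟩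
        exact ⟨c', h1, h2.symm⟩
    refine ⟨?_, ?_⟩
    · show ({c | ∃ c' ∈ a n, c = tr δ c'} : Set (Cn Ω md δ)).Countable
      rw [e]
      exact (ha n).1.image _
    · rintro c ⟨c', h1, rfl⟩
      exact tr_HC ((ha n).2 h1) δ
  refine ⟨δ, hδ, ⟨tr δ v3, _, _, tr_HC hv3H δ, hnm hb, hnm ha⟩, hδ, q', ?_, x, hx, ?_, ?_, ?_, ?_, ?_⟩
  · exact k3.trans (hq.trans (hq1.trans hp1))
  · exact hI.mono _ _ _ (k3.trans (hq.trans hq1)) hIn
  · rw [k1]
    exact hbd3.symm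
  · rw [k1, k2 β le_rfl]
    exact (hNR β hβ).mono hv3q
  · rw [k1, k2 β le_rfl]
    refine (hFb.mono hv3).imp fun G _ h1 => ?_
    have h2 : ev (q.co β) G = ev b G := h1
    rw [h2]
    exact hmt2 G
  · have h1 : FA q' fun G => f1 (rs β G) = ev a (rs β G) := by
      refine FA.proj (Ψ := fun G => f1 G = ev a G) hβ.le ?_
      rw [k1]
      exact hFa.mono (hv3.trans hv2)
    refine FA.imp₂ h1 (hSC.mono (k3.trans hq)) fun G _ h2 h3 => ?_
    rw [h2, hmt1, rs_rs G hδ.le hβ.le] at h3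
    exact h3

end Pool.Agent.Lib.MP_011f3a_lc.LM

/-! # Homogeneous data, part 3 (module H-DATAC)

Otherwise for all `δ < τ` and `d : Dat md δ` there is `ε(d) < τ` such that `d` does not work at any `β > ε(d)`; by `card_Dat` and `Om2.sup` there is `F δ < τ` above all `ε(d)`; let `β` be as in `Om2.clo` for `F`; `exists_works` gives `δ < β`, `d` with `Works In p β d`, but `β > F δ > ε(d)`. -/

namespace Pool.Agent.Lib.MP_011f3a_lc.LM

open Cardinal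

variable {Ω : Type} [LinearOrder Ω] [WellFoundedLT Ω] {md : Md} {ζ ξ η τ δ β : Ω}

/-- some data work for unboundedly many `β` -/
theorem exists_dat (h : Om2 τ) {In : Cn Ω md τ → (Flt (Cn Ω md τ) → Set ℕ) → Prop} {p : Cn Ω md τ}
    (hI : InH In p) : ∃ δ < τ, ∃ d : Dat md δ, ∀ ε < τ, ∃ β < τ, ε < β ∧ Works In p β d := by
  by_contra hcon
  have h1 : ∀ δ < τ, ∀ d : Dat md δ, ∃ ε < τ, ∀ β < τ, ε < β → ¬ Works In p β d := by
    intro δ hδ d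
    by_contra hd
    apply hcon
    refine ⟨δ, hδ, d, fun ε hε => ?_⟩
    by_contra he
    apply hd
    refine ⟨ε, hε, fun β hβ hεβ hw => he ⟨β, hβ, hεβ, hw⟩⟩
  have h2 : ∀ δ < τ, ∃ e < τ, ∀ d : Dat md δ, ∀ β < τ, e < β → ¬ Works In p β d := by
    intro δ hδ
    choose f hf hf' using h1 δ hδ
    obtain ⟨e, he, he'⟩ := h.sup (Dat md δ) f (card_Dat h hδ) hf
    exact ⟨e, he, fun d β hβ heβ => hf' d β hβ ((he' d).trans heβ)⟩
  choose! F hF hF' using h2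
  obtain ⟨δ₀, hδ₀⟩ := h.ne
  obtain ⟨β, hβ, -, hc, hcl⟩ := h.clo F hF δ₀ hδ₀
  obtain ⟨δ, hδ, d, hw⟩ := exists_works hI hβ hc
  exact hF' δ (hδ.trans hβ) d β hβ (hcl δ hδ) hw

end Pool.Agent.Lib.MP_011f3a_lc.LM
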